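import Pool.Agent.Helper102_sidon.Main

set_option autoImplicit false

open MeasureTheory
open scoped ENNReal

namespace Pool.Agent.Results.MP_080bf7_an.Subgaussian

/-- The normalised Haar measure of the compact group `(ℤ/qℤ)^ℕ` (product topology): the Haar
measure giving the whole group mass one. -/
noncomputable def haar (q : ℕ) [NeZero q] : Measure (ℕ → ZMod q) :=
  Measure.addHaarMeasure (⊤ : TopologicalSpace.PositiveCompacts (ℕ → ZMod q))

/-- The character `γ_n(t) = exp(2 π i (∑_k t_k n_k) / q)` of `(ℤ/qℤ)^ℕ` attached to the finitely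
supported sequence `n`. -/
noncomputable def chr (q : ℕ) (n : ℕ →₀ ZMod q) (t : ℕ → ZMod q) : ℂ :=
  Complex.exp (2 * Real.pi * Complex.I *
    (∑ k ∈ n.support, ((t k).val : ℂ) * ((n k).val : ℂ)) / (q : ℂ))

/-- The norm `‖f‖_{ψ₂} = inf {c > 0 : ∫ exp(|f|² / c²) dm ≤ e}`, with values in `[0, ∞]`. -/
noncomputable def psiTwo (q : ℕ) [NeZero q] (f : (ℕ → ZMod q) → ℂ) : ℝ≥0∞ :=
  sInf {y : ℝ≥0∞ | ∃ c : ℝ, 0 < c ∧ y = ENNReal.ofReal c ∧
    ∫⁻ t, ENNReal.ofReal (Real.exp (‖f t‖ ^ 2 / c ^ 2)) ∂(haar q) ≤ ENNReal.ofReal (Real.exp 1)}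

/-- `Λ` is subgaussian: for some finite `C`, `‖∑ a_n γ_n‖_{ψ₂} ≤ C (∑ |a_n|²)^{1/2}` for every finitely
supported family of complex coefficients `(a_n)_{n ∈ Λ}`. -/
def IsSubgaussian (q : ℕ) [NeZero q] (Λ : Set (ℕ →₀ ZMod q)) : Prop :=
  ∃ C : ℝ, ∀ a : Λ →₀ ℂ,
    psiTwo q (fun t => ∑ n ∈ a.support, a n * chr q (n : ℕ →₀ ZMod q) t) ≤
      ENNReal.ofReal (C * Real.sqrt (∑ n ∈ a.support, ‖a n‖ ^ 2))

/-- `Λ` is quasi-independent: for distinct `λ_1, …, λ_N ∈ Λ` and `ξ_k ∈ {-1, 0, 1}`, the relation
`∑ ξ_k λ_k = 0` forces all `ξ_k = 0`. -/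
def IsQuasiIndependent (q : ℕ) (Λ : Set (ℕ →₀ ZMod q)) : Prop :=
  ∀ (N : ℕ) (l : Fin N → (ℕ →₀ ZMod q)) (ξ : Fin N → ℤ), Function.Injective l → (∀ k, l k ∈ Λ) →
    (∀ k, ξ k = -1 ∨ ξ k = 0 ∨ ξ k = 1) → ∑ k, ξ k • l k = 0 → ∀ k, ξ k = 0

theorem chr_eq (q : ℕ) [NeZero q] (n : ℕ →₀ ZMod q) (t : ℕ → ZMod q) :
    chr q n t = ZMod.stdAddChar (n.sum fun k v => t k * v) := by
  have h1 : (n.sum fun k v => t k * v) =
      (((∑ k ∈ n.support, (t k).val * (n k).val : ℕ) : ℤ) : ZMod q) := by
    rw [Finsupp.sum]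
    push_cast
    apply Finset.sum_congr rfl
    intro k _
    rw [ZMod.natCast_zmod_val, ZMod.natCast_zmod_val]
  rw [h1, ZMod.stdAddChar_coe, chr]
  push_cast
  rfl

theorem chr_add_right (q : ℕ) [NeZero q] (n : ℕ →₀ ZMod q) (t s : ℕ → ZMod q) :
    chr q n (t + s) = chr q n t * chr q n s := by
  rw [chr_eq, chr_eq, chr_eq, ← AddChar.map_add_eq_mul]
  congr 1
  rw [← Finsupp.sum_add]
  apply Finsupp.sum_congr
  intro k _
  rw [Pi.add_apply, add_mul]

instance (q : ℕ) [NeZero q] : IsProbabilityMeasure (haar q) where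
  measure_univ := by
    have h1 := Measure.addHaarMeasure_self
      (K₀ := (⊤ : TopologicalSpace.PositiveCompacts (ℕ → ZMod q)))
    rw [TopologicalSpace.PositiveCompacts.coe_top] at h1
    exact h1

instance (q : ℕ) [NeZero q] : (haar q).IsAddHaarMeasure := by
  unfold haar
  infer_instance

theorem sys (q : ℕ) [NeZero q] :
    Pool.Agent.Helper102_sidon.CharSys (ℕ →₀ ZMod q) (haar q) (chr q) where
  zero x := by simp [chr]
  add m n x := by
    rw [chr_eq, chr_eq, chr_eq, ← AddChar.map_add_eq_mul]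
    congr 1
    exact Finsupp.sum_add_index' (fun k => mul_zero _) (fun k a b => mul_add _ _ _)
  norm n x := by
    rw [chr_eq]
    exact AddChar.norm_apply _ _
  meas n := by
    unfold chr
    apply Complex.measurable_exp.comp
    apply Measurable.div_const
    apply Measurable.const_mul
    apply Finset.measurable_sum
    intro k _
    apply Measurable.mul_const
    exact (measurable_of_countable (fun z : ZMod q => ((z.val : ℕ) : ℂ))).comp
      (measurable_pi_apply k)
  orth n hn := by
    obtain ⟨k, hk⟩ : ∃ k, n k ≠ 0 := by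
      by_contra hcon
      push Not at hcon
      exact hn (Finsupp.ext hcon)
    set s : ℕ → ZMod q := Pi.single k 1 with hs
    have h1 : chr q n s ≠ 1 := by
      rw [chr_eq]
      have h2 : (n.sum fun j v => s j * v) = n k := by
        rw [Finsupp.sum, Finset.sum_eq_single k]
        · rw [hs, Pi.single_eq_same, one_mul]
        · intro j _ hj
          rw [hs, Pi.single_eq_of_ne hj, zero_mul]
        · intro h
          exact absurd (Finsupp.notMem_support_iff.mp h) hk
      rw [h2]
      intro h3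
      apply hk
      apply ZMod.injective_stdAddChar
      rw [h3, AddChar.map_zero_eq_one]
    have h2 : ∫ t, chr q n (t + s) ∂(haar q) = ∫ t, chr q n t ∂(haar q) :=
      integral_add_right_eq_self (fun t => chr q n t) s
    simp_rw [chr_add_right] at h2
    rw [integral_mul_const] at h2
    have h3 : (∫ t, chr q n t ∂(haar q)) * (chr q n s - 1) = 0 := by
      rw [mul_sub, h2, mul_one, sub_self]
    rcases mul_eq_zero.mp h3 with h4 | h4
    · exact h4
    · exact absurd (sub_eq_zero.mp h4) h1

/-- Quasi-independence in terms of finite subsets. -/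
theorem qi_iff (q : ℕ) (Q : Set (ℕ →₀ ZMod q)) :
    IsQuasiIndependent q Q ↔ Pool.Agent.H337R3.Sid.QI Q := by
  classical
  constructor
  · intro h A hA ξ hξ hrel x hx
    let e := A.equivFin
    have h1 := h A.card (fun k => (e.symm k : ℕ →₀ ZMod q)) (fun k => ξ (e.symm k))
      (fun i j hij => e.symm.injective (Subtype.ext hij)) (fun k => hA (e.symm k).2)
      (fun k => hξ _ (e.symm k).2) (by
        rw [← hrel, ← Finset.sum_coe_sort A, ← Equiv.sum_comp e.symm])
    have h2 := h1 (e ⟨x, hx⟩)
    simpa using h2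
  · intro h N l ξ hl hlQ hξ hrel k
    have : Nonempty (Fin N) := ⟨k⟩
    have hinv : ∀ k, (Function.invFun l) (l k) = k := Function.leftInverse_invFun hl
    have h1 := h (Finset.univ.image l) (by
        intro x hx
        obtain ⟨j, _, rfl⟩ := Finset.mem_image.mp (Finset.mem_coe.mp hx)
        exact hlQ j) (fun x => ξ (Function.invFun l x)) (by
        intro x _
        exact hξ _) (by
        rw [Finset.sum_image (fun a _ b _ hab => hl hab), ← hrel]
        exact Finset.sum_congr rfl (fun j _ => by rw [hinv])) (l k)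
        (Finset.mem_image_of_mem l (Finset.mem_univ k))
    simpa [hinv] using h1

/-- **A set of nonzero characters of `(ℤ/qℤ)^ℕ` is subgaussian if and only if it is a finite union of
quasi-independent sets**; the question is the case `q = 4`. -/
theorem result (q : ℕ) [NeZero q] (Λ : Set (ℕ →₀ ZMod q)) (h0 : (0 : ℕ →₀ ZMod q) ∉ Λ) :
    IsSubgaussian q Λ ↔
      ∃ (k : ℕ) (Q : Fin k → Set (ℕ →₀ ZMod q)), (∀ i, IsQuasiIndependent q (Q i)) ∧
        Λ = ⋃ i, Q i := by
  classical
  have hq : 0 < q := Nat.pos_of_ne_zero (NeZero.ne q)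
  have hexp : ∀ x : ℕ →₀ ZMod q, q • x = 0 := by
    intro x
    ext k
    simp
  constructor
  · rintro ⟨C, hC⟩
    obtain ⟨K, hK⟩ := Pool.Agent.Helper102_sidon.small (sys q) Λ h0
      (fun D _ => Pool.Agent.H337R3.Sid.closure_finite q hq D (fun x _ => hexp x)) (|C| + 1) (by
        intro A hA hAe
        have hcard : (0 : ℝ) < A.card := by exact_mod_cast Finset.card_pos.mpr hAe
        have hsq : 0 < Real.sqrt A.card := Real.sqrt_pos.mpr hcard
        -- the coefficient family equal to one on `A`
        let A' : Finset Λ := A.subtype (fun x => x ∈ Λ)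
        let a : Λ →₀ ℂ := Finsupp.onFinset A' (fun n => if (n : ℕ →₀ ZMod q) ∈ A then 1 else 0) (by
          intro n hn
          rw [Finset.mem_subtype]
          by_contra hcon
          exact hn (if_neg hcon))
        have hsupp : a.support = A' := by
          ext n
          simp only [a, Finsupp.mem_support_iff, Finsupp.onFinset_apply, A', Finset.mem_subtype]
          by_cases h : (n : ℕ →₀ ZMod q) ∈ A
          · simp [h]
          · simp [h]
        have hval : ∀ n ∈ A', a n = 1 := by
          intro n hn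
          simp only [a, Finsupp.onFinset_apply]
          exact if_pos (Finset.mem_subtype.mp hn)
        have hpoly : ∀ t, ∑ n ∈ a.support, a n * chr q (n : ℕ →₀ ZMod q) t = ∑ n ∈ A, chr q n t := by
          intro t
          rw [hsupp, Finset.sum_congr rfl (fun n hn => by rw [hval n hn, one_mul])]
          exact Finset.sum_subtype_of_mem (fun n => chr q n t) (fun x hx => hA hx)
        have hnorm : ∑ n ∈ a.support, ‖a n‖ ^ 2 = A.card := by
          rw [hsupp, Finset.sum_congr rfl (fun n hn => by rw [hval n hn])]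
          simp only [norm_one, one_pow, Finset.sum_const, nsmul_eq_mul, mul_one]
          congr 1
          have h1 : A'.card = (A.filter (fun x => x ∈ Λ)).card := Finset.card_subtype _ _
          rw [h1, Finset.filter_true_of_mem (fun x hx => hA hx)]
        have h1 := hC a
        simp_rw [hpoly] at h1
        rw [hnorm] at h1
        have h2 : psiTwo q (fun t => ∑ n ∈ A, chr q n t) <
            ENNReal.ofReal ((|C| + 1) * Real.sqrt A.card) := by
          refine lt_of_le_of_lt h1 ?_
          rw [ENNReal.ofReal_lt_ofReal_iff (by positivity)]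
          apply mul_lt_mul_of_pos_right _ hsq
          have := le_abs_self C
          linarith
        obtain ⟨y, ⟨c, hc0, rfl, hc⟩, hlt⟩ := sInf_lt_iff.mp h2
        rw [ENNReal.ofReal_lt_ofReal_iff (by positivity)] at hlt
        exact ⟨c, hc0, hlt.le, hc⟩)
    obtain ⟨Q, hQ, hΛ⟩ := Pool.Agent.H337R3.Sid.finite_union (Γ := ℕ →₀ ZMod q)
      q.primeFactorsList (fun p hp => Nat.prime_of_mem_primeFactorsList hp) K Λ
      (by rw [Nat.prod_primeFactorsList hq.ne']; exact fun x _ => hexp x) hK
    exact ⟨_, Q, fun i => (qi_iff q _).mpr (hQ i), hΛ⟩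
  · rintro ⟨k, Q, hQ, hΛ⟩
    refine ⟨2 * k * Real.sqrt (2 * Real.exp 1), ?_⟩
    intro a
    set A : Finset (ℕ →₀ ZMod q) := a.support.map (Function.Embedding.subtype _) with hA
    set b : (ℕ →₀ ZMod q) → ℂ := fun n => if h : n ∈ Λ then a ⟨n, h⟩ else 0 with hb
    have hpoly : ∀ t, ∑ n ∈ a.support, a n * chr q (n : ℕ →₀ ZMod q) t =
        ∑ n ∈ A, b n * chr q n t := by
      intro t
      rw [hA, Finset.sum_map]
      apply Finset.sum_congr rfl
      intro n _
      simp only [hb, Function.Embedding.subtype_apply]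
      rw [dif_pos n.2]
    have hnorm : ∑ n ∈ a.support, ‖a n‖ ^ 2 = ∑ n ∈ A, ‖b n‖ ^ 2 := by
      rw [hA, Finset.sum_map]
      apply Finset.sum_congr rfl
      intro n _
      simp only [hb, Function.Embedding.subtype_apply]
      rw [dif_pos n.2]
    have hAΛ : (A : Set (ℕ →₀ ZMod q)) ⊆ Λ := by
      intro x hx
      rw [hA] at hx
      obtain ⟨n, _, rfl⟩ := Finset.mem_map.mp (Finset.mem_coe.mp hx)
      exact n.2
    simp_rw [hpoly]
    rw [hnorm]
    have hs0 : 0 ≤ ∑ n ∈ A, ‖b n‖ ^ 2 := Finset.sum_nonneg (fun _ _ => by positivity)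
    rcases hs0.eq_or_lt with hs | hs
    · -- the zero polynomial
      have hz : ∀ n ∈ A, b n = 0 := by
        intro n hn
        have h1 := (Finset.sum_eq_zero_iff_of_nonneg (fun i _ => by positivity)).mp hs.symm n hn
        have h2 : ‖b n‖ = 0 := by
          rcases pow_eq_zero_iff (two_ne_zero) |>.mp h1 with h
          exact h
        exact norm_eq_zero.mp h2
      have hz' : ∀ t, ∑ n ∈ A, b n * chr q n t = 0 := fun t =>
        Finset.sum_eq_zero (fun n hn => by rw [hz n hn, zero_mul])
      rw [← hs, Real.sqrt_zero, mul_zero, ENNReal.ofReal_zero]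
      simp_rw [hz']
      apply le_of_forall_gt_imp_ge_of_dense
      intro y hy
      have hmem : ∀ c : ℝ, 0 < c → psiTwo q (fun _ => (0 : ℂ)) ≤ ENNReal.ofReal c := by
        intro c hc
        apply sInf_le
        refine ⟨c, hc, rfl, ?_⟩
        simp only [norm_zero, ne_eq, OfNat.ofNat_ne_zero, not_false_eq_true, zero_pow, zero_div,
          Real.exp_zero, ENNReal.ofReal_one, lintegral_const, measure_univ, mul_one]
        rw [← ENNReal.ofReal_one]
        apply ENNReal.ofReal_le_ofReal
        have := Real.add_one_le_exp (1 : ℝ)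
        linarith
      by_cases hyt : y = ⊤
      · rw [hyt]; exact le_top
      · have h3 := hmem y.toReal (ENNReal.toReal_pos hy.ne' hyt)
        rwa [ENNReal.ofReal_toReal hyt] at h3
    · have h1 := Pool.Agent.Helper102_sidon.sg_of_union (sys q) k Q
        (fun i => (qi_iff q _).mp (hQ i)) A (by rw [← hΛ]; exact hAΛ) b hs
      have hk : 0 < k := by
        by_contra hcon
        have hk0 : k = 0 := by omega
        subst hk0
        have hne : A.Nonempty := by
          by_contra h2
          rw [Finset.not_nonempty_iff_eq_empty] at h2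
          rw [h2] at hs
          simp at hs
        obtain ⟨x, hx⟩ := hne
        have := hAΛ hx
        rw [hΛ] at this
        simp at this
      have hkr : (0 : ℝ) < k := by exact_mod_cast hk
      have he : (0 : ℝ) < Real.exp 1 := Real.exp_pos 1
      have h2 : 2 * (k : ℝ) * Real.sqrt (2 * Real.exp 1) * Real.sqrt (∑ n ∈ A, ‖b n‖ ^ 2) =
          2 * k * Real.sqrt (2 * Real.exp 1 * ∑ n ∈ A, ‖b n‖ ^ 2) := by
        rw [Real.sqrt_mul (by positivity) (∑ n ∈ A, ‖b n‖ ^ 2)]
        ring
      rw [h2]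
      apply sInf_le
      exact ⟨_, by positivity, rfl, h1⟩

end Pool.Agent.Results.MP_080bf7_an.Subgaussian
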